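import Pool.Agent.H695R2.IsoImp.Defs

/-!
# Basic facts about formulas; independence of the ground set of the variables
-/

namespace Pool.Agent.H695R2.IsoImp

open Pool.Agent.NPC

namespace BF

theorem eval_rename (π : ℕ → ℕ) (σ : ℕ → Bool) : ∀ φ : BF,
    (φ.rename π).eval σ = φ.eval (fun x => σ (π x))
  | var _ => rfl
  | neg f => by simp only [rename, eval, eval_rename π σ f]
  | and f g => by simp only [rename, eval, eval_rename π σ f, eval_rename π σ g]
  | or f g => by simp only [rename, eval, eval_rename π σ f, eval_rename π σ g]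

theorem eval_congr {σ τ : ℕ → Bool} : ∀ {φ : BF}, (∀ x ∈ φ.vars, σ x = τ x) →
    φ.eval σ = φ.eval τ
  | var n, h => h n (by simp [vars])
  | neg f, h => by simp only [eval, eval_congr (φ := f) h]
  | and f g, h => by
    simp only [eval, eval_congr (φ := f) (fun x hx => h x (by simp [vars, hx])),
      eval_congr (φ := g) (fun x hx => h x (by simp [vars, hx]))]
  | or f g, h => by
    simp only [eval, eval_congr (φ := f) (fun x hx => h x (by simp [vars, hx])),
      eval_congr (φ := g) (fun x hx => h x (by simp [vars, hx]))]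

/-- The list of the variables of a formula, in the order of their occurrence. -/
def varsL (f : BF) : List ℕ :=
  f.polish.flatMap (Sum.elim (fun _ => []) (fun n => [n]))

theorem mem_varsL {x : ℕ} : ∀ {φ : BF}, x ∈ φ.varsL ↔ x ∈ φ.vars
  | var n => by simp [varsL, polish, vars]
  | neg f => by
    have := mem_varsL (x := x) (φ := f)
    simpa [varsL, polish, vars] using this
  | and f g => by
    have h1 := mem_varsL (x := x) (φ := f)
    have h2 := mem_varsL (x := x) (φ := g)
    simp only [varsL, polish, vars, List.flatMap_cons, List.flatMap_append, Sum.elim_inl,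
      List.nil_append, List.mem_append, Finset.mem_union] at h1 h2 ⊢
    rw [h1, h2]
  | or f g => by
    have h1 := mem_varsL (x := x) (φ := f)
    have h2 := mem_varsL (x := x) (φ := g)
    simp only [varsL, polish, vars, List.flatMap_cons, List.flatMap_append, Sum.elim_inl,
      List.nil_append, List.mem_append, Finset.mem_union] at h1 h2 ⊢
    rw [h1, h2]

end BF

/-- A permutation of `X`, seen as a permutation of `ℕ` that fixes all points outside `X`. -/
theorem isoImpliesOn_iff {X : Finset ℕ} {φ ψ : BF} : IsoImpliesOn X φ ψ ↔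
    ∃ π : Equiv.Perm ℕ, (∀ x, x ∈ X ↔ π x ∈ X) ∧ (∀ x, x ∉ X → π x = x) ∧
      Implies (φ.rename π) ψ := by
  constructor
  · rintro ⟨π, h⟩
    refine ⟨Equiv.Perm.ofSubtype π, ?_, ?_, h⟩
    · intro x
      by_cases hx : x ∈ X
      · rw [Equiv.Perm.ofSubtype_apply_of_mem π hx]
        simp [hx]
      · rw [Equiv.Perm.ofSubtype_apply_of_not_mem π hx]
    · intro x hx
      exact Equiv.Perm.ofSubtype_apply_of_not_mem π hx
  · rintro ⟨π, h1, h2, h⟩
    refine ⟨π.subtypePerm (fun x => (h1 x).symm), ?_⟩
    rw [Equiv.Perm.ofSubtype_subtypePerm]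
    · exact h
    · intro x hx
      by_contra hx'
      exact hx (h2 x hx')

/-- Isomorphic implication does not depend on the choice of the finite set `X` of variables, as
long as it contains all variables of both formulas. -/
theorem isoImpliesOn_indep {X : Finset ℕ} {φ ψ : BF} (hX : φ.vars ∪ ψ.vars ⊆ X) :
    IsoImpliesOn X φ ψ ↔ ISOIMP (φ, ψ) := by
  classical
  constructor
  · intro h
    obtain ⟨π, h1, h2, h⟩ := isoImpliesOn_iff.1 h
    set X₀ := φ.vars ∪ ψ.vars with hX₀
    -- the part of `π` inside `X₀`
    let e : {v : X₀ // π v ∈ X₀} ≃ {w : X₀ // π.symm w ∈ X₀} :=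
      { toFun := fun v => ⟨⟨π v.1.1, v.2⟩, by simp⟩
        invFun := fun w => ⟨⟨π.symm w.1.1, w.2⟩, by simp⟩
        left_inv := fun v => by simp
        right_inv := fun w => by simp }
    let ρ : Equiv.Perm X₀ := e.extendSubtype
    refine ⟨ρ, ?_⟩
    change Implies (φ.rename (Equiv.Perm.ofSubtype ρ)) ψ
    intro σ hσ
    rw [BF.eval_rename] at hσ
    let σ' : ℕ → Bool := fun x => if x ∈ X₀ then σ x else σ (Equiv.Perm.ofSubtype ρ (π.symm x))
    have e1 : ∀ x ∈ φ.vars, σ' (π x) = σ (Equiv.Perm.ofSubtype ρ x) := by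
      intro x hx
      have hx0 : x ∈ X₀ := Finset.mem_union_left _ hx
      by_cases hp : π x ∈ X₀
      · simp only [σ', if_pos hp]
        rw [Equiv.Perm.ofSubtype_apply_of_mem ρ hx0]
        congr 1
        have := Equiv.extendSubtype_apply_of_mem e ⟨x, hx0⟩ hp
        change π x = (ρ ⟨x, hx0⟩ : ℕ)
        rw [show ρ ⟨x, hx0⟩ = _ from this]
        rfl
      · simp only [σ', if_neg hp, Equiv.symm_apply_apply]
    have e2 : ψ.eval σ' = true := by
      apply h
      rw [BF.eval_rename, BF.eval_congr e1]
      exact hσ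
    rw [← e2]
    apply BF.eval_congr
    intro x hx
    have hx0 : x ∈ X₀ := Finset.mem_union_right _ hx
    simp only [σ', if_pos hx0]
  · intro h
    obtain ⟨π, h1, h2, h⟩ := isoImpliesOn_iff.1 h
    refine isoImpliesOn_iff.2 ⟨π, ?_, ?_, h⟩
    · intro x
      by_cases hx : x ∈ φ.vars ∪ ψ.vars
      · have := (h1 x).1 hx
        exact ⟨fun _ => hX this, fun _ => hX hx⟩
      · rw [h2 x hx]
    · intro x hx
      exact h2 x (fun h' => hx (hX h'))

/-! ### Big conjunctions and disjunctions -/

/-- The conjunction of a list of formulas and the formula `d`. -/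
def bigAnd (d : BF) (l : List BF) : BF := l.foldr BF.and d

/-- The disjunction of a list of formulas and the formula `d`. -/
def bigOr (d : BF) (l : List BF) : BF := l.foldr BF.or d

theorem eval_bigAnd {σ : ℕ → Bool} {d : BF} {l : List BF} :
    (bigAnd d l).eval σ = true ↔ (∀ f ∈ l, f.eval σ = true) ∧ d.eval σ = true := by
  induction l with
  | nil => simp [bigAnd]
  | cons f l ih =>
    simp only [bigAnd, List.foldr_cons, BF.eval, Bool.and_eq_true, List.mem_cons,
      forall_eq_or_imp] at ih ⊢
    rw [ih, and_assoc]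

theorem eval_bigOr {σ : ℕ → Bool} {d : BF} {l : List BF} :
    (bigOr d l).eval σ = true ↔ (∃ f ∈ l, f.eval σ = true) ∨ d.eval σ = true := by
  induction l with
  | nil => simp [bigOr]
  | cons f l ih =>
    simp only [bigOr, List.foldr_cons, BF.eval, Bool.or_eq_true, List.mem_cons,
      exists_eq_or_imp] at ih ⊢
    rw [ih, or_assoc]

theorem mem_vars_bigAnd {x : ℕ} {d : BF} {l : List BF} :
    x ∈ (bigAnd d l).vars ↔ (∃ f ∈ l, x ∈ f.vars) ∨ x ∈ d.vars := by
  induction l with
  | nil => simp [bigAnd]
  | cons f l ih =>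
    simp only [bigAnd, List.foldr_cons, BF.vars, Finset.mem_union, List.mem_cons,
      exists_eq_or_imp] at ih ⊢
    rw [ih, or_assoc]

theorem isTerm_bigAnd {d : BF} {l : List BF} (hd : d.IsTerm) (hl : ∀ f ∈ l, f.IsTerm) :
    (bigAnd d l).IsTerm := by
  induction l with
  | nil => exact hd
  | cons f l ih =>
    exact ⟨hl f (by simp), ih (fun g hg => hl g (by simp [hg]))⟩

theorem polish_bigAnd (d : BF) (l : List BF) :
    (bigAnd d l).polish = l.flatMap (fun f => Sum.inl (some true) :: f.polish) ++ d.polish := by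
  induction l with
  | nil => rfl
  | cons f l ih =>
    simp only [bigAnd, List.foldr_cons, BF.polish, List.flatMap_cons] at ih ⊢
    rw [ih]
    simp

theorem polish_bigOr (d : BF) (l : List BF) :
    (bigOr d l).polish = l.flatMap (fun f => Sum.inl (some false) :: f.polish) ++ d.polish := by
  induction l with
  | nil => rfl
  | cons f l ih =>
    simp only [bigOr, List.foldr_cons, BF.polish, List.flatMap_cons] at ih ⊢
    rw [ih]
    simp

/-! ### Polynomial time -/

section PolyTime

variable {α β : Type} [TEnc α] [TEnc β]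

@[fun_prop] theorem poly_polish {f : α → BF} (hf : Poly f) : Poly (fun a => (f a).polish) := hf

theorem poly_of_polish {f : α → BF} (hf : Poly (fun a => (f a).polish)) : Poly f := hf

@[fun_prop] theorem poly_var {n : α → ℕ} (hn : Poly n) : Poly (fun a => BF.var (n a)) :=
  poly_of_polish (by simp only [BF.polish]; fun_prop)

@[fun_prop] theorem poly_neg {f : α → BF} (hf : Poly f) : Poly (fun a => BF.neg (f a)) :=
  poly_of_polish (by simp only [BF.polish]; fun_prop)

@[fun_prop] theorem poly_and {f g : α → BF} (hf : Poly f) (hg : Poly g) :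
    Poly (fun a => BF.and (f a) (g a)) :=
  poly_of_polish (by simp only [BF.polish]; fun_prop)

@[fun_prop] theorem poly_or {f g : α → BF} (hf : Poly f) (hg : Poly g) :
    Poly (fun a => BF.or (f a) (g a)) :=
  poly_of_polish (by simp only [BF.polish]; fun_prop)

@[fun_prop] theorem poly_bigAnd {d : α → BF} {l : α → List BF} (hd : Poly d) (hl : Poly l) :
    Poly (fun a => bigAnd (d a) (l a)) :=
  poly_of_polish (by simp only [polish_bigAnd]; fun_prop)

@[fun_prop] theorem poly_bigOr {d : α → BF} {l : α → List BF} (hd : Poly d) (hl : Poly l) :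
    Poly (fun a => bigOr (d a) (l a)) :=
  poly_of_polish (by simp only [polish_bigOr]; fun_prop)

@[fun_prop] theorem poly_varsL {f : α → BF} (hf : Poly f) : Poly (fun a => (f a).varsL) := by
  unfold BF.varsL
  fun_prop

end PolyTime

end Pool.Agent.H695R2.IsoImp
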