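import Pool.Agent.H596R2.Sigma2
import Pool.Agent.H671R2.PolyAuto

/-!
# Boolean formulas, their encoding, and isomorphic implication
-/

namespace Pool.Agent.H695R2.IsoImp

open Pool.Agent.NPC

/-- Boolean formulas over the variables `x₀, x₁, x₂, ...` with connectives `¬`, `∧`, `∨`. -/
inductive BF : Type
  | var (n : ℕ) : BF
  | neg (f : BF) : BF
  | and (f g : BF) : BF
  | or (f g : BF) : BF
  deriving DecidableEq

namespace BF

/-- The value of a formula under a truth assignment. -/
def eval (σ : ℕ → Bool) : BF → Bool
  | var n => σ n
  | neg f => !(f.eval σ)
  | and f g => f.eval σ && g.eval σ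
  | or f g => f.eval σ || g.eval σ

/-- The set of variables of a formula. -/
def vars : BF → Finset ℕ
  | var n => {n}
  | neg f => f.vars
  | and f g => f.vars ∪ g.vars
  | or f g => f.vars ∪ g.vars

/-- The formula obtained by replacing every variable `x` by `π x` simultaneously. -/
def rename (π : ℕ → ℕ) : BF → BF
  | var n => var (π n)
  | neg f => neg (f.rename π)
  | and f g => and (f.rename π) (g.rename π)
  | or f g => or (f.rename π) (g.rename π)

/-- The formula is a conjunction of literals. -/
def IsTerm : BF → Prop
  | var _ => True
  | neg (var _) => True
  | and f g => f.IsTerm ∧ g.IsTerm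
  | _ => False

/-- The formula in Polish (prefix) notation: a word over the alphabet consisting of the three
connectives `¬` (`inl none`), `∧` (`inl (some true)`), `∨` (`inl (some false)`) and the
variables `inr n`. -/
def polish : BF → List (Option Bool ⊕ ℕ)
  | var n => [Sum.inr n]
  | neg f => Sum.inl none :: f.polish
  | and f g => Sum.inl (some true) :: (f.polish ++ g.polish)
  | or f g => Sum.inl (some false) :: (f.polish ++ g.polish)

/-- One step of the parser, which reads a word from right to left. -/
def pstep (t : Option Bool ⊕ ℕ) (s : Option (List BF)) : Option (List BF) :=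
  match s with
  | none => none
  | some l =>
    match t with
    | Sum.inr n => some (var n :: l)
    | Sum.inl o =>
      match l with
      | [] => none
      | f :: l' =>
        match o with
        | none => some (neg f :: l')
        | some b =>
          match l' with
          | [] => none
          | g :: l'' => some ((if b then and f g else or f g) :: l'')

theorem foldr_pstep_polish : ∀ (f : BF) (l : List BF),
    f.polish.foldr pstep (some l) = some (f :: l)
  | var _, _ => rfl
  | neg f, l => by
    rw [polish, List.foldr_cons, foldr_pstep_polish f l]
    rfl
  | and f g, l => by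
    rw [polish, List.foldr_cons, List.foldr_append, foldr_pstep_polish g l,
      foldr_pstep_polish f (g :: l)]
    rfl
  | or f g, l => by
    rw [polish, List.foldr_cons, List.foldr_append, foldr_pstep_polish g l,
      foldr_pstep_polish f (g :: l)]
    rfl

/-- Polish notation is uniquely readable. -/
theorem polish_injective : Function.Injective polish := by
  intro f g h
  have h1 := foldr_pstep_polish f []
  have h2 := foldr_pstep_polish g []
  rw [h, h2] at h1
  simpa using h1.symm

end BF

/-- A formula is encoded as a string through its Polish notation, variables being written as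
their indices in binary. -/
instance : TEnc BF := ⟨fun f => toT f.polish, TEnc.inj.comp BF.polish_injective⟩

/-- `φ ⇒ ψ`: every truth assignment that satisfies `φ` also satisfies `ψ`. -/
def Implies (φ ψ : BF) : Prop := ∀ σ : ℕ → Bool, φ.eval σ = true → ψ.eval σ = true

/-- Some permutation `π` of the finite set `X` satisfies `π(φ) ⇒ ψ`. -/
def IsoImpliesOn (X : Finset ℕ) (φ ψ : BF) : Prop :=
  ∃ π : Equiv.Perm X, Implies (φ.rename (Equiv.Perm.ofSubtype π)) ψ

/-- The decision problem ISO-IMP: given `(φ, ψ)`, does `φ` isomorphically imply `ψ`? Here `X` is
the set of all variables of `φ` and `ψ`. -/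
def ISOIMP (p : BF × BF) : Prop := IsoImpliesOn (p.1.vars ∪ p.2.vars) p.1 p.2

end Pool.Agent.H695R2.IsoImp
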