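import Pool.Agent.H695R2.IsoImp.Basic

/-!
# `Σ₂ᵖ`-hardness of isomorphic implication
-/

namespace Pool.Agent.H695R2.IsoImp

open Pool.Agent.NPC Pool.Agent.NPC.S2

/-- The first variable of the `i`-th pair. -/
def pA (s m i : ℕ) : ℕ := if i < s then i else m

/-- The second variable of the `i`-th pair. -/
def pB (m i : ℕ) : ℕ := m + 1 + i

/-- A literal as a formula. -/
def lit (l : Bool × ℕ) : BF := if l.1 = true then BF.var l.2 else BF.neg (BF.var l.2)

/-- A term as a formula. -/
def termF (c : ℕ) (t : List (Bool × ℕ)) : BF :=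
  bigAnd (BF.or (BF.var c) (BF.neg (BF.var c))) (t.map lit)

/-- A disjunctive normal form as a formula. -/
def dnfF (c : ℕ) (D : List (List (Bool × ℕ))) : BF :=
  bigOr (BF.and (BF.var c) (BF.neg (BF.var c))) (D.map (termF c))

/-- Exclusive or. -/
def xorF (a b : ℕ) : BF :=
  BF.or (BF.and (BF.var a) (BF.neg (BF.var b))) (BF.and (BF.neg (BF.var a)) (BF.var b))

/-- The formula `φ`: the conjunction of `a_i ∧ ¬ b_i`. -/
def phi (s m : ℕ) : BF :=
  bigAnd (BF.and (BF.var (pA s m s)) (BF.neg (BF.var (pB m s))))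
    ((List.range s).map (fun i => BF.and (BF.var (pA s m i)) (BF.neg (BF.var (pB m i)))))

/-- The formula `ψ`: the conjunction of `a_i ⊕ b_i` and of the given formula. -/
def psi (s m : ℕ) (D : List (List (Bool × ℕ))) : BF :=
  bigAnd (BF.and (xorF (pA s m s) (pB m s)) (dnfF m D))
    ((List.range s).map (fun i => xorF (pA s m i) (pB m i)))

/-- The reduction. -/
def red (I : List Unit × List Unit × List (List (Bool × ℕ))) : BF × BF :=
  (phi I.1.length (I.1.length + I.2.1.length), psi I.1.length (I.1.length + I.2.1.length) I.2.2)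

theorem eval_lit {σ : ℕ → Bool} {l : Bool × ℕ} : (lit l).eval σ = true ↔ σ l.2 = l.1 := by
  obtain ⟨b, v⟩ := l
  cases b <;> simp [lit, BF.eval]

theorem eval_termF {σ : ℕ → Bool} {c : ℕ} {t : List (Bool × ℕ)} :
    (termF c t).eval σ = true ↔ ∀ l ∈ t, σ l.2 = l.1 := by
  unfold termF
  rw [eval_bigAnd]
  constructor
  · rintro ⟨h, _⟩ l hl
    exact eval_lit.1 (h _ (List.mem_map.2 ⟨l, hl, rfl⟩))
  · intro h
    refine ⟨fun f hf => ?_, by cases hc : σ c <;> simp [BF.eval, hc]⟩
    obtain ⟨l, hl, rfl⟩ := List.mem_map.1 hf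
    exact eval_lit.2 (h l hl)

theorem eval_dnfF {σ : ℕ → Bool} {c : ℕ} {D : List (List (Bool × ℕ))} :
    (dnfF c D).eval σ = true ↔ ∃ t ∈ D, ∀ l ∈ t, σ l.2 = l.1 := by
  unfold dnfF
  rw [eval_bigOr]
  constructor
  · rintro (⟨f, hf, h⟩ | h)
    · obtain ⟨t, ht, rfl⟩ := List.mem_map.1 hf
      exact ⟨t, ht, eval_termF.1 h⟩
    · exfalso
      cases hc : σ c <;> simp [BF.eval, hc] at h
  · rintro ⟨t, ht, h⟩
    exact Or.inl ⟨_, List.mem_map.2 ⟨t, ht, rfl⟩, eval_termF.2 h⟩

theorem eval_xorF {σ : ℕ → Bool} {a b : ℕ} : (xorF a b).eval σ = true ↔ σ a ≠ σ b := by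
  cases ha : σ a <;> cases hb : σ b <;> simp [xorF, BF.eval, ha, hb]

theorem eval_phi {σ : ℕ → Bool} {s m : ℕ} : (phi s m).eval σ = true ↔
    ∀ i ≤ s, σ (pA s m i) = true ∧ σ (pB m i) = false := by
  unfold phi
  rw [eval_bigAnd]
  simp only [List.mem_map, List.mem_range, forall_exists_index, and_imp, forall_apply_eq_imp_iff₂,
    BF.eval, Bool.and_eq_true, Bool.not_eq_true']
  constructor
  · rintro ⟨h1, h2⟩ i hi
    rcases hi.lt_or_eq with h | h
    · exact h1 i h
    · subst h; exact h2
  · intro h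
    exact ⟨fun i hi => h i hi.le, h s le_rfl⟩

theorem eval_psi {σ : ℕ → Bool} {s m : ℕ} {D : List (List (Bool × ℕ))} :
    (psi s m D).eval σ = true ↔
    (∀ i ≤ s, σ (pA s m i) ≠ σ (pB m i)) ∧ ∃ t ∈ D, ∀ l ∈ t, σ l.2 = l.1 := by
  unfold psi
  rw [eval_bigAnd]
  simp only [List.mem_map, List.mem_range, forall_exists_index, and_imp, forall_apply_eq_imp_iff₂]
  rw [BF.eval, Bool.and_eq_true, eval_dnfF, eval_xorF]
  constructor
  · rintro ⟨h1, h2, h3⟩
    refine ⟨fun i hi => ?_, h3⟩
    rcases hi.lt_or_eq with h | h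
    · exact eval_xorF.1 (h1 i h)
    · subst h; exact h2
  · rintro ⟨h, h3⟩
    exact ⟨fun i hi => eval_xorF.2 (h i hi.le), h s le_rfl, h3⟩

theorem isTerm_phi (s m : ℕ) : (phi s m).IsTerm := by
  refine isTerm_bigAnd ⟨trivial, trivial⟩ ?_
  intro f hf
  obtain ⟨i, _, rfl⟩ := List.mem_map.1 hf
  exact ⟨trivial, trivial⟩

/-- The exchange of the variables of the pairs with `Y i = false`. -/
def flip (s m : ℕ) (Y : ℕ → Bool) (v : ℕ) : ℕ :=
  if v < s ∧ Y v = false then m + 1 + v
  else if m + 1 ≤ v ∧ v - (m + 1) < s ∧ Y (v - (m + 1)) = false then v - (m + 1) else v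

theorem flip_involutive {s m : ℕ} (hsm : s ≤ m) (Y : ℕ → Bool) :
    Function.Involutive (flip s m Y) := by
  intro v
  by_cases h1 : v < s ∧ Y v = false
  · have e : flip s m Y v = m + 1 + v := by simp only [flip, if_pos h1]
    rw [e]
    have h2 : ¬ (m + 1 + v < s ∧ Y (m + 1 + v) = false) := by omega
    have h3 : m + 1 + v - (m + 1) = v := by omega
    simp only [flip, if_neg h2, h3]
    rw [if_pos ⟨by omega, h1.1, h1.2⟩]
  · by_cases h2 : m + 1 ≤ v ∧ v - (m + 1) < s ∧ Y (v - (m + 1)) = false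
    · have e : flip s m Y v = v - (m + 1) := by simp only [flip, if_neg h1, if_pos h2]
      rw [e]
      simp only [flip, if_pos h2.2]
      omega
    · have e : flip s m Y v = v := by simp only [flip, if_neg h1, if_neg h2]
      rw [e, e]

/-- Correctness, first direction. -/
theorem sound {s n : ℕ} {D : List (List (Bool × ℕ))} {Y : ℕ → Bool}
    (hD : ∀ t ∈ D, ∀ l ∈ t, l.2 < s + n) (hn : 0 < n)
    (hY : ∀ X : ℕ → Bool, ∃ t ∈ D, ∀ l ∈ t, mix s Y X l.2 = l.1) :
    ISOIMP (phi s (s + n), psi s (s + n) D) := by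
  set m := s + n with hm
  obtain ⟨N0, hN0⟩ := Finset.exists_nat_subset_range ((phi s m).vars ∪ (psi s m D).vars)
  have hX : (phi s m).vars ∪ (psi s m D).vars ⊆ Finset.range (N0 + (m + 1 + s)) :=
    hN0.trans (Finset.range_subset_range.2 (by omega))
  rw [← isoImpliesOn_indep hX, isoImpliesOn_iff]
  have hinv := flip_involutive (s := s) (m := m) (by omega) Y
  have hmap : ∀ v, v < N0 + (m + 1 + s) → flip s m Y v < N0 + (m + 1 + s) := by
    intro v hv
    unfold flip
    split_ifs <;> omega
  refine ⟨hinv.toPerm, ?_, ?_, ?_⟩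
  · intro v
    rw [Finset.mem_range, Finset.mem_range, Function.Involutive.coe_toPerm]
    refine ⟨hmap v, fun h => ?_⟩
    have := hmap _ h
    rwa [hinv v] at this
  · intro v hv
    rw [Finset.mem_range] at hv
    rw [Function.Involutive.coe_toPerm]
    unfold flip
    rw [if_neg (by omega), if_neg (by omega)]
  · intro σ hσ
    rw [BF.eval_rename, Function.Involutive.coe_toPerm, eval_phi] at hσ
    rw [eval_psi]
    -- the values of the variables
    have hval : ∀ i < s, σ i = Y i ∧ σ (m + 1 + i) = !(Y i) := by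
      intro i hi
      have h1 := hσ i hi.le
      simp only [pA, if_pos hi, pB] at h1
      have h3 : ¬ (m + 1 + i < s ∧ Y (m + 1 + i) = false) := by omega
      have h4 : m + 1 + i - (m + 1) = i := by omega
      cases hYi : Y i with
      | false =>
        have e1 : flip s m Y i = m + 1 + i := by simp only [flip, if_pos (And.intro hi hYi)]
        have e2 : flip s m Y (m + 1 + i) = i := by
          simp only [flip, if_neg h3, h4]
          rw [if_pos ⟨by omega, hi, hYi⟩]
        rw [e1, e2] at h1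
        exact ⟨h1.2, by rw [h1.1]; rfl⟩
      | true =>
        have h5 : ¬ (i < s ∧ Y i = false) := by simp [hYi]
        have e1 : flip s m Y i = i := by
          simp only [flip, if_neg h5]
          rw [if_neg (by omega)]
        have e2 : flip s m Y (m + 1 + i) = m + 1 + i := by
          simp only [flip, if_neg h3, h4]
          rw [if_neg (by simp [hYi])]
        rw [e1, e2] at h1
        exact ⟨h1.1, by rw [h1.2]; rfl⟩
    have hlast : σ m = true ∧ σ (m + 1 + s) = false := by
      have h1 := hσ s le_rfl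
      simp only [pA, if_neg (lt_irrefl s), pB] at h1
      have e1 : flip s m Y m = m := by
        unfold flip
        rw [if_neg (by omega), if_neg (by omega)]
      have e2 : flip s m Y (m + 1 + s) = m + 1 + s := by
        unfold flip
        rw [if_neg (by omega), if_neg (by omega)]
      rw [e1, e2] at h1
      exact h1
    refine ⟨?_, ?_⟩
    · intro i hi
      rcases hi.lt_or_eq with h | h
      · simp only [pA, if_pos h, pB]
        rw [(hval i h).1, (hval i h).2]
        cases Y i <;> simp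
      · subst h
        simp only [pA, if_neg (lt_irrefl i), pB]
        rw [hlast.1, hlast.2]
        simp
    · obtain ⟨t, ht, hl⟩ := hY σ
      refine ⟨t, ht, fun l hl' => ?_⟩
      rw [← hl l hl']
      unfold mix
      split_ifs with h
      · exact (hval _ h).1
      · rfl

/-- Correctness, second direction. -/
theorem complete {s n : ℕ} {D : List (List (Bool × ℕ))}
    (hD : ∀ t ∈ D, ∀ l ∈ t, l.2 < s + n) (h : ISOIMP (phi s (s + n), psi s (s + n) D)) :
    ∃ Y : ℕ → Bool, ∀ X : ℕ → Bool, ∃ t ∈ D, ∀ l ∈ t, mix s Y X l.2 = l.1 := by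
  classical
  set m := s + n with hm
  obtain ⟨π, -, -, h⟩ := isoImpliesOn_iff.1 h
  change Implies ((phi s m).rename π) (psi s m D) at h
  have h' : ∀ σ : ℕ → Bool, (∀ i ≤ s, σ (π (pA s m i)) = true ∧ σ (π (pB m i)) = false) →
      (∀ i ≤ s, σ (pA s m i) ≠ σ (pB m i)) ∧ ∃ t ∈ D, ∀ l ∈ t, σ l.2 = l.1 := by
    intro σ hσ
    rw [← eval_psi]
    apply h
    rw [BF.eval_rename, eval_phi]
    exact hσ
  have hAB : ∀ i ≤ s, ∀ j ≤ s, pA s m i ≠ pB m j := by
    intro i hi j hj
    unfold pA pB
    split_ifs <;> omega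
  let S : Finset ℕ := (Finset.range (s + 1)).image (pA s m) ∪ (Finset.range (s + 1)).image (pB m)
  have hSA : ∀ i ≤ s, pA s m i ∈ S := fun i hi =>
    Finset.mem_union_left _ (Finset.mem_image.2 ⟨i, Finset.mem_range.2 (by omega), rfl⟩)
  have hSB : ∀ i ≤ s, pB m i ∈ S := fun i hi =>
    Finset.mem_union_right _ (Finset.mem_image.2 ⟨i, Finset.mem_range.2 (by omega), rfl⟩)
  let σ0 : ℕ → Bool := fun v => decide (∃ i ≤ s, v = π (pA s m i))
  have hσA : ∀ i ≤ s, σ0 (π (pA s m i)) = true := fun i hi => by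
    simp only [σ0, decide_eq_true_eq]
    exact ⟨i, hi, rfl⟩
  have hσB : ∀ i ≤ s, σ0 (π (pB m i)) = false := fun i hi => by
    simp only [σ0, decide_eq_false_iff_not]
    rintro ⟨j, hj, hj'⟩
    exact hAB j hj i hi (π.injective hj').symm
  have hsub : S ⊆ S.image π := by
    -- a variable which is not fixed can be flipped
    have key : ∀ v, v ∉ S.image π → ∀ i ≤ s, ∀ i' ≤ s,
        Function.update σ0 v (!σ0 v) (π (pA s m i)) = true ∧
        Function.update σ0 v (!σ0 v) (π (pB m i')) = false := by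
      intro v hv i hi i' hi'
      have n1 : π (pA s m i) ≠ v := fun hc =>
        hv (hc ▸ Finset.mem_image_of_mem π (hSA i hi))
      have n2 : π (pB m i') ≠ v := fun hc =>
        hv (hc ▸ Finset.mem_image_of_mem π (hSB i' hi'))
      rw [Function.update_of_ne n1, Function.update_of_ne n2]
      exact ⟨hσA i hi, hσB i' hi'⟩
    have h0 := (h' σ0 (fun i hi => ⟨hσA i hi, hσB i hi⟩)).1
    intro v hv
    by_contra hv'
    have h1 := (h' _ (fun i hi => key v hv' i hi i hi)).1
    rcases Finset.mem_union.1 hv with hv | hv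
    · obtain ⟨i, hi, rfl⟩ := Finset.mem_image.1 hv
      have hi : i ≤ s := by have := Finset.mem_range.1 hi; omega
      have a0 := h0 i hi
      have a1 := h1 i hi
      rw [Function.update_self, Function.update_of_ne (hAB i hi i hi).symm] at a1
      cases c1 : σ0 (pA s m i) <;> cases c2 : σ0 (pB m i) <;> simp_all
    · obtain ⟨i, hi, rfl⟩ := Finset.mem_image.1 hv
      have hi : i ≤ s := by have := Finset.mem_range.1 hi; omega
      have a0 := h0 i hi
      have a1 := h1 i hi
      rw [Function.update_self, Function.update_of_ne (hAB i hi i hi)] at a1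
      cases c1 : σ0 (pA s m i) <;> cases c2 : σ0 (pB m i) <;> simp_all
  have hS : S = S.image π := Finset.eq_of_subset_of_card_le hsub
    (Finset.card_image_of_injective S π.injective).le
  refine ⟨σ0, fun X => ?_⟩
  let σ : ℕ → Bool := fun v => if v ∈ S then σ0 v else X v
  have hσ : ∀ i ≤ s, σ (π (pA s m i)) = true ∧ σ (π (pB m i)) = false := by
    intro i hi
    have m1 : π (pA s m i) ∈ S := by
      rw [hS]; exact Finset.mem_image_of_mem π (hSA i hi)
    have m2 : π (pB m i) ∈ S := by
      rw [hS]; exact Finset.mem_image_of_mem π (hSB i hi)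
    simp only [σ, if_pos m1, if_pos m2]
    exact ⟨hσA i hi, hσB i hi⟩
  obtain ⟨t, ht, htl⟩ := (h' σ hσ).2
  refine ⟨t, ht, fun l hl => ?_⟩
  rw [← htl l hl]
  have hlt := hD t ht l hl
  unfold mix
  by_cases hls : l.2 < s
  · rw [if_pos hls]
    have : l.2 ∈ S := by
      have := hSA l.2 hls.le
      rwa [pA, if_pos hls] at this
    simp only [σ, if_pos this]
  · rw [if_neg hls]
    have : l.2 ∉ S := by
      intro hc
      rcases Finset.mem_union.1 hc with hc | hc
      · obtain ⟨i, hi, hi'⟩ := Finset.mem_image.1 hc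
        unfold pA at hi'
        split_ifs at hi' <;> omega
      · obtain ⟨i, hi, hi'⟩ := Finset.mem_image.1 hc
        unfold pB at hi'
        omega
    simp only [σ, if_neg this]

theorem red_correct (I : List Unit × List Unit × List (List (Bool × ℕ))) (hI : EAPr I) :
    EA I ↔ (red I).1.IsTerm ∧ ISOIMP (red I) := by
  constructor
  · rintro ⟨Y, hY⟩
    exact ⟨isTerm_phi _ _, sound hI.2 hI.1 hY⟩
  · rintro ⟨_, h⟩
    exact complete hI.2 h

attribute [local fun_prop] Poly.range_length

theorem poly_pA {α : Type} [TEnc α] {s m i : α → ℕ} (hs : Poly s) (hm : Poly m) (hi : Poly i) :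
    Poly (fun a => pA (s a) (m a) (i a)) := by
  unfold pA
  fun_prop

theorem poly_lit {α : Type} [TEnc α] {l : α → Bool × ℕ} (hl : Poly l) :
    Poly (fun a => lit (l a)) := by
  unfold lit
  fun_prop

attribute [local fun_prop] poly_pA poly_lit

theorem poly_red : Poly red := by
  unfold red phi psi xorF dnfF termF pB
  fun_prop

/-- ISO-IMP is `Σ₂ᵖ`-hard, even if the first formula is a conjunction of literals. -/
theorem hardS2_term : HardS2 (fun _ => True) (fun p : BF × BF => p.1.IsTerm ∧ ISOIMP p) :=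
  hardS2_EA.trans poly_red (fun _ _ => trivial) red_correct

theorem hardS2_isoimp : HardS2 (fun _ => True) ISOIMP :=
  hardS2_EA.trans poly_red (fun _ _ => trivial) (fun I hI =>
    ⟨fun h => ((red_correct I hI).1 h).2, fun h => (red_correct I hI).2 ⟨isTerm_phi _ _, h⟩⟩)

end Pool.Agent.H695R2.IsoImp
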