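import Pool.Agent.H695R2.IsoImp.Basic

/-!
# Isomorphic implication is in `Σ₂ᵖ`
-/

namespace Pool.Agent.H695R2

open Pool.Agent.NPC Pool.Agent.NPC.S2

/-! ### `Σ₂ᵖ` with typed certificates -/

section Typed

/-- One step of removing the padding. -/
def sstep (b : Bool) (s : Option (List Bool)) : Option (List Bool) :=
  s.elim (if b = true then some [] else none) (fun l => some (b :: l))

/-- Remove the padding: everything after the last `true`, and this `true`. -/
def strip (u : List Bool) : List Bool := (u.foldr sstep none).getD []

/-- The padding of a string of length at most `n` to a string of length `n + 1`. -/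
def pad (n : ℕ) (x : List Bool) : List Bool := x ++ true :: List.replicate (n - x.length) false

theorem length_pad {n : ℕ} {x : List Bool} (h : x.length ≤ n) : (pad n x).length = n + 1 := by
  simp only [pad, List.length_append, List.length_cons, List.length_replicate]
  omega

theorem strip_pad (n : ℕ) (x : List Bool) : strip (pad n x) = x := by
  have h1 : ∀ k, (List.replicate k false).foldr sstep none = none := by
    intro k
    induction k with
    | zero => rfl
    | succ k ih => rw [List.replicate_succ, List.foldr_cons, ih]; rfl
  have h2 : ∀ x l : List Bool, x.foldr sstep (some l) = some (x ++ l) := by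
    intro x l
    induction x with
    | nil => rfl
    | cons b x ih => rw [List.foldr_cons, ih]; rfl
  unfold strip pad
  rw [List.foldr_append, List.foldr_cons, h1]
  change (x.foldr sstep (some [])).getD [] = x
  rw [h2]
  simp

theorem foldr_sstep_length : ∀ (u l : List Bool), u.foldr sstep none = some l →
    l.length + 1 ≤ u.length := by
  intro u
  induction u with
  | nil => intro l h; simp at h
  | cons b u ih =>
    intro l h
    rw [List.foldr_cons] at h
    cases hu : u.foldr sstep none with
    | none =>
      rw [hu] at h
      cases b with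
      | false => simp [sstep] at h
      | true =>
        simp only [sstep, Option.elim_none, if_true, Option.some.injEq] at h
        subst h
        simp
    | some l' =>
      rw [hu] at h
      simp only [sstep, Option.elim_some, Option.some.injEq] at h
      subst h
      have := ih l' hu
      simp only [List.length_cons]
      omega

theorem length_strip (u : List Bool) : (strip u).length ≤ u.length - 1 := by
  unfold strip
  cases h : u.foldr sstep none with
  | none => simp
  | some l =>
    have := foldr_sstep_length u l h
    simp only [Option.getD_some]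
    omega

theorem poly_strip : Poly strip := by
  have h : Poly (fun u : List Bool => u.foldr sstep none) := by
    refine Poly.foldr (F := fun _ => sstep) Poly.id (NPC.Poly.const _) ?_
      (Polynomial.C 4 * Polynomial.X + 3) ?_
    · unfold sstep
      fun_prop
    · intro u k _
      cases h : (u.drop k).foldr sstep none with
      | none => simp
      | some l =>
        have h1 := foldr_sstep_length _ l h
        have h2 := sz_listBool_le l
        have h3 := length_lt_sz u
        rw [List.length_drop] at h1
        simp only [sz_some, Polynomial.eval_add, Polynomial.eval_mul, Polynomial.eval_C,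
          Polynomial.eval_X, Polynomial.eval_ofNat]
        omega
  unfold strip
  fun_prop

variable {α β γ : Type} [TEnc α] [TEnc β] [TEnc γ] [TDec α] [TDec β] [TDec γ]

/-- A decision problem about decodable data of the form `∃ w ∀ z, R (a, w, z)`, where `w`, `z`
range over data of polynomially bounded size and `R` is computable in polynomial time, is in
`Σ₂ᵖ`. -/
theorem inSigma2P_typed {P : α → Prop} {R : α × β × γ → Bool} (hR : Poly R) (q : Polynomial ℕ)
    (h : ∀ a, P a ↔ ∃ w : β, sz w ≤ q.eval (sz a) ∧
      ∀ z : γ, sz z ≤ q.eval (sz a) → R (a, w, z) = true) : InSigma2P P := by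
  have hp : Poly (fun x : α × List Bool × List Bool =>
      (unbits β (strip x.2.1)).elim false (fun w =>
        (unbits γ (strip x.2.2)).elim true (fun z => R (x.1, w, z)))) := by
    have h1 : Poly (fun x : α × List Bool × List Bool => unbits β (strip x.2.1)) :=
      poly_unbits.comp (poly_strip.comp (Poly.fst (Poly.snd Poly.id)))
    have h2 : Poly (fun x : α × List Bool × List Bool => unbits γ (strip x.2.2)) :=
      poly_unbits.comp (poly_strip.comp (Poly.snd (Poly.snd Poly.id)))
    refine Poly.optElim (h := fun (x : α × List Bool × List Bool) w =>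
        (unbits γ (strip x.2.2)).elim true (fun z => R (x.1, w, z))) h1 (NPC.Poly.const _) ?_
    refine Poly.optElim (o := fun p : (α × List Bool × List Bool) × β =>
      unbits γ (strip p.1.2.2)) (g := fun _ => true) (h := fun p z => R (p.1.1, p.2, z))
      (h2.comp (Poly.fst Poly.id)) (NPC.Poly.const _) ?_
    exact hR.comp (Poly.pair (Poly.fst (Poly.fst (Poly.fst Poly.id)))
      (Poly.pair (Poly.snd (Poly.fst Poly.id)) (Poly.snd Poly.id)))
  refine inSigma2P_of hp (q + 1) (fun a => ?_)
  rw [h a]
  simp only [Polynomial.eval_add, Polynomial.eval_one]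
  constructor
  · rintro ⟨w, hw, hall⟩
    refine ⟨pad (q.eval (sz a)) (bits w), length_pad (by rw [bits_length]; exact hw), ?_⟩
    intro v hv
    rw [strip_pad, unbits_bits, Option.elim_some]
    cases hz : unbits γ (strip v) with
    | none => rfl
    | some z =>
      rw [Option.elim_some]
      apply hall
      have h1 := length_strip v
      rw [← bits_of_unbits hz, bits_length] at h1
      omega
  · rintro ⟨u, hu, hall⟩
    cases hw : unbits β (strip u) with
    | none =>
      exfalso
      have := hall (List.replicate (q.eval (sz a) + 1) false) (by simp)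
      rw [hw] at this
      simp at this
    | some w =>
      have h1 := length_strip u
      rw [← bits_of_unbits hw, bits_length] at h1
      refine ⟨w, by omega, fun z hz => ?_⟩
      have h2 := hall (pad (q.eval (sz a)) (bits z)) (length_pad (by rw [bits_length]; exact hz))
      rw [hw, strip_pad, unbits_bits] at h2
      exact h2

end Typed

namespace IsoImp

/-! ### Decoding formulas -/

namespace BF

theorem foldr_pstep_some : ∀ (x : List (Option Bool ⊕ ℕ)) (l : List BF),
    x.foldr pstep (some []) = some l → x = l.flatMap polish := by
  intro x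
  induction x with
  | nil => intro l h; simp at h; subst h; rfl
  | cons t x ih =>
    intro l h
    rw [List.foldr_cons] at h
    cases hx : x.foldr pstep (some []) with
    | none => rw [hx] at h; simp [pstep] at h
    | some l' =>
      rw [hx] at h
      have ih' := ih l' hx
      match t, l', h, ih' with
      | Sum.inr n, l', h, ih' =>
        simp only [pstep, Option.some.injEq] at h
        subst h
        simp [ih', polish]
      | Sum.inl o, [], h, _ => simp [pstep] at h
      | Sum.inl none, f :: l', h, ih' =>
        simp only [pstep, Option.some.injEq] at h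
        subst h
        simp [ih', polish]
      | Sum.inl (some b), [f], h, _ => simp [pstep] at h
      | Sum.inl (some b), f :: g :: l', h, ih' =>
        simp only [pstep, Option.some.injEq] at h
        subst h
        cases b <;> simp [ih', polish]

theorem pstep_eq (t : Option Bool ⊕ ℕ) (s : Option (List BF)) :
    pstep t s = s.elim none (fun l => Sum.elim
      (fun o => l.head?.elim none (fun f => o.elim (some (neg f :: l.tail))
        (fun b => l.tail.head?.elim none
          (fun g => some ((if b = true then and f g else or f g) :: l.tail.tail)))))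
      (fun n => some (var n :: l)) t) := by
  match t, s with
  | _, none => rfl
  | Sum.inr n, some l => rfl
  | Sum.inl o, some [] => rfl
  | Sum.inl none, some (f :: l) => rfl
  | Sum.inl (some b), some [f] => rfl
  | Sum.inl (some b), some (f :: g :: l) => rfl

theorem sz_flatMap_polish (l : List BF) : sz l ≤ 2 * sz (l.flatMap polish) := by
  induction l with
  | nil => simp
  | cons f l ih =>
    have h1 : sz f = sz f.polish := rfl
    have h2 := sz_append f.polish (l.flatMap polish)
    have hne : ∀ (t : Option Bool ⊕ ℕ) (l : List (Option Bool ⊕ ℕ)), 3 ≤ sz (t :: l) := by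
      intro t l
      have e1 := sz_pos t
      have e2 := sz_pos l
      rw [sz_list_cons]
      omega
    have h3 : 3 ≤ sz f.polish := by
      cases f <;> exact hne _ _
    have h4 := sz_pos (l.flatMap polish)
    rw [List.flatMap_cons, sz_list_cons]
    omega

theorem poly_foldr_pstep :
    Poly (fun x : List (Option Bool ⊕ ℕ) => x.foldr pstep (some [])) := by
  refine Poly.foldr (F := fun _ => pstep) Poly.id (NPC.Poly.const _) ?_
    (Polynomial.C 2 * Polynomial.X + 2) ?_
  · simp only [pstep_eq]
    fun_prop
  · intro x k _
    cases h : (x.drop k).foldr pstep (some []) with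
    | none => simp
    | some l =>
      have h1 := foldr_pstep_some _ l h
      have h2 := sz_flatMap_polish l
      rw [← h1] at h2
      have h3 := Poly.sz_drop_le x k
      simp only [sz_some, Polynomial.eval_add, Polynomial.eval_mul, Polynomial.eval_C,
        Polynomial.eval_X, Polynomial.eval_ofNat]
      omega

/-- The parser. -/
def parse (x : List (Option Bool ⊕ ℕ)) : Option BF :=
  (x.foldr pstep (some [])).elim none (fun l => if l.tail = [] then l.head? else none)

theorem parse_polish (f : BF) : parse f.polish = some f := by
  unfold parse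
  rw [foldr_pstep_polish]
  rfl

theorem polish_of_parse {x : List (Option Bool ⊕ ℕ)} {f : BF} (h : parse x = some f) :
    f.polish = x := by
  unfold parse at h
  cases hx : x.foldr pstep (some []) with
  | none => rw [hx] at h; simp at h
  | some l =>
    rw [hx, Option.elim_some] at h
    have h1 := foldr_pstep_some x l hx
    match l, h, h1 with
    | [], h, _ => simp at h
    | [g], h, h1 =>
      simp at h
      subst h
      simp [h1]
    | g :: g' :: l, h, _ => simp at h

theorem poly_parse : Poly parse := by
  unfold parse
  have := poly_foldr_pstep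
  fun_prop

end BF

instance : TDec BF :=
  TDec.of BF.polish BF.parse (fun _ => rfl) BF.parse_polish (fun _ _ h => BF.polish_of_parse h)
    BF.poly_parse

/-! ### Evaluation in polynomial time -/

/-- One step of the evaluation. -/
def estep (σ : ℕ → Bool) (t : Option Bool ⊕ ℕ) (s : List Bool) : List Bool :=
  Sum.elim (fun o => o.elim ((!(s.head?.getD false)) :: s.tail)
      (fun b => (if b = true then s.head?.getD false && s.tail.head?.getD false
        else s.head?.getD false || s.tail.head?.getD false) :: s.tail.tail))
    (fun n => σ n :: s) t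

theorem foldr_estep (σ : ℕ → Bool) : ∀ (f : BF) (l : List Bool),
    f.polish.foldr (estep σ) l = f.eval σ :: l
  | BF.var _, _ => rfl
  | BF.neg f, l => by
    rw [BF.polish, List.foldr_cons, foldr_estep σ f l]
    rfl
  | BF.and f g, l => by
    rw [BF.polish, List.foldr_cons, List.foldr_append, foldr_estep σ g l,
      foldr_estep σ f (g.eval σ :: l)]
    rfl
  | BF.or f g, l => by
    rw [BF.polish, List.foldr_cons, List.foldr_append, foldr_estep σ g l,
      foldr_estep σ f (g.eval σ :: l)]
    rfl

theorem length_foldr_estep (σ : ℕ → Bool) (x : List (Option Bool ⊕ ℕ)) :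
    (x.foldr (estep σ) []).length ≤ x.length + 1 := by
  have key : ∀ x : List (Option Bool ⊕ ℕ), (x.foldr (estep σ) []).length ≤ x.length := by
    intro x
    induction x with
    | nil => simp
    | cons t x ih =>
      rw [List.foldr_cons, List.length_cons]
      generalize x.foldr (estep σ) [] = s at ih ⊢
      match t with
      | Sum.inr n => simp only [estep, Sum.elim_inr, List.length_cons]; omega
      | Sum.inl none =>
        simp only [estep, Sum.elim_inl, Option.elim_none, List.length_cons, List.length_tail]
        omega
      | Sum.inl (some b) =>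
        simp only [estep, Sum.elim_inl, Option.elim_some, List.length_cons, List.length_tail]
        omega
  exact (key x).trans (Nat.le_succ _)

theorem poly_eval {α : Type} [TEnc α] {f : α → BF} {σ : α → ℕ → Bool} (hf : Poly f)
    (hσ : Poly (fun p : α × ℕ => σ p.1 p.2)) : Poly (fun a => (f a).eval (σ a)) := by
  obtain ⟨r, hr⟩ := (poly_polish hf).sz_le
  have h : Poly (fun a => (f a).polish.foldr (estep (σ a)) []) := by
    refine Poly.foldr (F := fun a => estep (σ a)) (poly_polish hf) (NPC.Poly.const _) ?_
      (Polynomial.C 4 * r + 5) ?_
    · unfold estep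
      have h1 : Poly (fun p : (α × (Option Bool ⊕ ℕ) × List Bool) × ℕ => σ p.1.1 p.2) :=
        hσ.comp (Poly.pair (Poly.fst (Poly.fst Poly.id)) (Poly.snd Poly.id))
      fun_prop
    · intro a k _
      have h1 := length_foldr_estep (σ a) ((f a).polish.drop k)
      have h2 := sz_listBool_le (((f a).polish.drop k).foldr (estep (σ a)) [])
      have h3 := length_lt_sz (f a).polish
      have h4 := hr a
      rw [List.length_drop] at h1
      simp only [Polynomial.eval_add, Polynomial.eval_mul, Polynomial.eval_C,
        Polynomial.eval_ofNat]
      omega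
  have h2 : Poly (fun a => ((f a).polish.foldr (estep (σ a)) []).head?.getD false) := by
    fun_prop
  exact h2.congr fun a => by rw [foldr_estep]; rfl

/-! ### Membership -/

/-- Removing repetitions. -/
theorem poly_dedup {α β : Type} [TEnc α] [TEnc β] [DecidableEq β] {l : α → List β}
    (hl : Poly l) : Poly (fun a => (l a).dedup) := by
  obtain ⟨r, hr⟩ := hl.sz_le
  have key : ∀ l : List β, l.foldr (fun b s => if b ∈ s then s else b :: s) [] = l.dedup := by
    intro l
    induction l with
    | nil => rfl
    | cons b l ih =>
      rw [List.foldr_cons, ih]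
      by_cases h : b ∈ l
      · rw [List.dedup_cons_of_mem h, if_pos (List.mem_dedup.2 h)]
      · rw [List.dedup_cons_of_notMem h, if_neg (fun h' => h (List.mem_dedup.1 h'))]
  have hsz : ∀ l : List β, sz (l.dedup) ≤ sz l := by
    intro l
    induction l with
    | nil => simp
    | cons b l ih =>
      by_cases h : b ∈ l
      · rw [List.dedup_cons_of_mem h, sz_list_cons]
        omega
      · rw [List.dedup_cons_of_notMem h, sz_list_cons, sz_list_cons]
        omega
  refine (Poly.foldr (s := fun _ => []) (F := fun _ b (s : List β) => if b ∈ s then s else b :: s)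
    hl (NPC.Poly.const _) ?_ r ?_).congr fun a => key _
  · exact Poly.ite (p := fun p : α × β × List β => p.2.1 ∈ p.2.2)
      (Poly.decide_mem (Poly.fst (Poly.snd Poly.id)) (Poly.snd (Poly.snd Poly.id)))
      (Poly.snd (Poly.snd Poly.id)) (Poly.cons (Poly.fst (Poly.snd Poly.id))
      (Poly.snd (Poly.snd Poly.id)))
  · intro a k _
    rw [key]
    exact (hsz _).trans ((Poly.sz_drop_le _ _).trans (hr a))

/-- The list of the variables of two formulas, without repetitions. -/
def vs (a : BF × BF) : List ℕ := (a.1.varsL ++ a.2.varsL).dedup

theorem mem_vs {a : BF × BF} {x : ℕ} : x ∈ vs a ↔ x ∈ a.1.vars ∪ a.2.vars := by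
  simp [vs, BF.mem_varsL]

/-- The map coded by the list `w` of its values on the variables. -/
noncomputable def look (vs w : List ℕ) (x : ℕ) : ℕ := w.getD (index vs x) x

/-- The predicate of the `Σ₂ᵖ` description: `w` is the list of the values of a permutation `π` of
the variables, and the assignment `z` (list of the true variables) satisfies `π(φ) → ψ`. -/
noncomputable def R (p : (BF × BF) × List ℕ × List ℕ) : Bool :=
  (decide (p.2.1.length = (vs p.1).length) && (decide (p.2.1.dedup = p.2.1) &&
    p.2.1.all (fun y => decide (y ∈ vs p.1)))) &&
  (!(p.1.1.eval (fun x => decide (look (vs p.1) p.2.1 x ∈ p.2.2))) ||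
    p.1.2.eval (fun x => decide (x ∈ p.2.2)))

theorem poly_vs : Poly vs := by
  unfold vs
  exact poly_dedup (by fun_prop)

theorem poly_R : Poly R := by
  unfold R
  have h1 : Poly (fun p : (BF × BF) × List ℕ × List ℕ => vs p.1) :=
    poly_vs.comp (Poly.fst Poly.id)
  have h2 : Poly (fun p : (BF × BF) × List ℕ × List ℕ => p.2.1.dedup) :=
    poly_dedup (Poly.fst (Poly.snd Poly.id))
  have h3 : Poly (fun p : (BF × BF) × List ℕ × List ℕ =>
      p.1.1.eval (fun x => decide (look (vs p.1) p.2.1 x ∈ p.2.2))) := by
    refine poly_eval (by fun_prop) ?_
    refine Poly.dec_mem ?_ (by fun_prop)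
    unfold look
    exact Poly.getD (by fun_prop) (Poly.index (h1.comp (Poly.fst Poly.id)) (Poly.snd Poly.id))
      (Poly.snd Poly.id)
  have h4 : Poly (fun p : (BF × BF) × List ℕ × List ℕ =>
      p.1.2.eval (fun x => decide (x ∈ p.2.2))) :=
    poly_eval (by fun_prop) (by fun_prop)
  have h5 : Poly (fun p : ((BF × BF) × List ℕ × List ℕ) × ℕ => vs p.1.1) :=
    poly_vs.comp (Poly.fst (Poly.fst Poly.id))
  fun_prop

theorem look_eq {l w : List ℕ} {x : ℕ} (hx : x ∈ l) (hw : w.length = l.length) :
    ∃ h : index l x < w.length, look l w x = w[index l x] := by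
  have h1 := getElem?_index hx
  have h2 : index l x < l.length := by
    by_contra h
    rw [List.getElem?_eq_none (by omega)] at h1
    simp at h1
  refine ⟨by omega, ?_⟩
  unfold look
  rw [List.getD_eq_getElem?_getD, List.getElem?_eq_getElem (by omega), Option.getD_some]

theorem isoimp_inSigma2 : InSigma2P ISOIMP := by
  classical
  obtain ⟨r, hr⟩ := poly_vs.sz_le
  have hbound : ∀ (a : BF × BF) (l : List ℕ), l.length ≤ (vs a).length →
      (∀ y ∈ l, y ∈ vs a) → sz l ≤ (r * (r + 1) + 1).eval (sz a) := by
    intro a l h1 h2
    have h3 := sz_le_length_mul l (sz (vs a)) (fun y hy => (sz_le_of_mem (h2 y hy)).le)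
    have h4 := length_lt_sz (vs a)
    have h5 := hr a
    simp only [Polynomial.eval_add, Polynomial.eval_mul, Polynomial.eval_one]
    refine h3.trans ?_
    have : l.length ≤ r.eval (sz a) := by omega
    nlinarith [Nat.mul_le_mul this (Nat.add_le_add_right h5 1)]
  refine inSigma2P_typed poly_R (r * (r + 1) + 1) (fun a => ?_)
  constructor
  · rintro ⟨π, hπ⟩
    set ρ := Equiv.Perm.ofSubtype π with hρ
    have hmem : ∀ x ∈ vs a, ρ x ∈ vs a := by
      intro x hx
      rw [mem_vs] at hx ⊢
      rw [hρ, Equiv.Perm.ofSubtype_apply_of_mem π hx]
      exact (π ⟨x, hx⟩).2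
    have hall : ∀ y ∈ (vs a).map ρ, y ∈ vs a := by
      intro y hy
      obtain ⟨x, hx, rfl⟩ := List.mem_map.1 hy
      exact hmem x hx
    refine ⟨(vs a).map ρ, hbound a _ (by simp) hall, fun z _ => ?_⟩
    unfold R
    simp only [Bool.and_eq_true, decide_eq_true_eq, List.all_eq_true, Bool.or_eq_true,
      Bool.not_eq_true']
    refine ⟨⟨by simp, ?_, hall⟩, ?_⟩
    · rw [List.dedup_eq_self]
      exact ((List.nodup_dedup _).map ρ.injective)
    · have h1 : a.1.eval (fun x => decide (look (vs a) ((vs a).map ρ) x ∈ z)) =
          (a.1.rename ρ).eval (fun x => decide (x ∈ z)) := by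
        rw [BF.eval_rename]
        apply BF.eval_congr
        intro x hx
        have hx' : x ∈ vs a := mem_vs.2 (Finset.mem_union_left _ hx)
        obtain ⟨hlt, he⟩ := look_eq (w := (vs a).map ρ) hx' (by simp)
        have h2 := getElem?_index hx'
        rw [List.getElem?_eq_getElem (by simpa using hlt)] at h2
        have h3 := Option.some.inj h2
        simp only [he, List.getElem_map, h3]
      rw [h1]
      cases h2 : (a.1.rename ρ).eval (fun x => decide (x ∈ z)) with
      | false => exact Or.inl rfl
      | true => exact Or.inr (hπ _ h2)
  · rintro ⟨w, _, hw⟩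
    have hv := hw [] (by
      simp only [sz_list_nil, Polynomial.eval_add, Polynomial.eval_one]; omega)
    unfold R at hv
    simp only [Bool.and_eq_true, decide_eq_true_eq, List.all_eq_true] at hv
    obtain ⟨⟨hlen, hnd, hall⟩, _⟩ := hv
    rw [List.dedup_eq_self] at hnd
    set X := a.1.vars ∪ a.2.vars with hX
    have hlookmem : ∀ x ∈ X, look (vs a) w x ∈ X := by
      intro x hx
      have hx' : x ∈ vs a := mem_vs.2 hx
      obtain ⟨hlt, he⟩ := look_eq hx' hlen
      rw [he]
      exact mem_vs.1 (hall _ (List.getElem_mem hlt))
    have hlookinj : ∀ x ∈ X, ∀ y ∈ X, look (vs a) w x = look (vs a) w y → x = y := by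
      intro x hx y hy h
      have hx' : x ∈ vs a := mem_vs.2 hx
      have hy' : y ∈ vs a := mem_vs.2 hy
      obtain ⟨hlt, he⟩ := look_eq hx' hlen
      obtain ⟨hlt', he'⟩ := look_eq hy' hlen
      rw [he, he'] at h
      exact index_inj hx' hy' ((List.Nodup.getElem_inj_iff hnd).1 h)
    let g : X → X := fun x => ⟨look (vs a) w x.1, hlookmem x.1 x.2⟩
    have hg : Function.Injective g := by
      intro x y hxy
      exact Subtype.ext (hlookinj x.1 x.2 y.1 y.2 (congrArg Subtype.val hxy))
    let π : Equiv.Perm X := Equiv.ofBijective g (Finite.injective_iff_bijective.1 hg)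
    refine ⟨π, ?_⟩
    intro σ hσ
    rw [BF.eval_rename] at hσ
    have hz := hw ((vs a).filter σ) (hbound a _ (List.length_filter_le _ _)
      (fun y hy => (List.mem_filter.1 hy).1))
    unfold R at hz
    simp only [Bool.and_eq_true, Bool.or_eq_true, Bool.not_eq_true'] at hz
    have hmemz : ∀ x ∈ X, decide (x ∈ (vs a).filter σ) = σ x := by
      intro x hx
      have hx' : x ∈ vs a := mem_vs.2 hx
      cases hs : σ x <;> simp [hx', hs]
    have h1 : a.1.eval (fun x => decide (look (vs a) w x ∈ (vs a).filter σ)) = true := by
      rw [← hσ]
      apply BF.eval_congr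
      intro x hx
      have hx0 : x ∈ X := Finset.mem_union_left _ hx
      rw [hmemz _ (hlookmem x hx0)]
      rw [Equiv.Perm.ofSubtype_apply_of_mem π hx0]
      rfl
    rcases hz.2 with h2 | h2
    · rw [h1] at h2; simp at h2
    · rw [← h2]
      apply BF.eval_congr
      intro x hx
      exact (hmemz x (Finset.mem_union_right _ hx)).symm

end IsoImp

end Pool.Agent.H695R2
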